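import Pool.Agent.W189.NF.LSer
import Pool.Agent.Y698.Lf
import Pool.Agent.W97.MT.Defs
import Mathlib.NumberTheory.Padics.HeightOneSpectrum

/-!
# Local factors over `ℚ`: places, residue fields, additive and multiplicative reduction
-/

set_option autoImplicit false
set_option linter.unusedSectionVars false

namespace Pool.Agent.N54.MF

open NumberField IsDedekindDomain WeierstrassCurve Pool.Agent.W189.NF
open Pool.Agent.H921R2.TatePole (nm)
open Pool.Agent.Y698 (AP min_good vc_int min_count v_unit)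
open Pool.Agent.W97.MT (affCount ap)

section Local

variable (R : Type) [CommRing R] [IsDomain R] [IsDiscreteValuationRing R] {L : Type}
  [Field L] [Algebra R L] [IsFractionRing R L]

open IsDiscreteValuationRing

/-- the local factor at some places of additive reduction (from `Y698/Az.lean`) -/
theorem min_add' {W : WeierstrassCurve L} {m : ℕ} (hm : ¬ 12 ∣ m)
    (hΔ : (maximalIdeal R).valuation L W.Δ = WithZero.exp (-(m : ℤ)))
    {j : L} (hj : (maximalIdeal R).valuation L j ≤ 1) (h4 : W.c₄ ^ 3 = j * W.Δ) :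
    aLoc R W = 0 ∧ eLoc R W = 0 := by
  set v := (maximalIdeal R).valuation L with hv
  obtain ⟨C, hC⟩ : ∃ C : VariableChange L, W.minimal R = C • W := ⟨_, rfl⟩
  set u : L := ((C.u⁻¹ : Lˣ) : L) with hu
  have hu0 : u ≠ 0 := (C.u⁻¹).ne_zero
  have hd : (W.minimal R).Δ = u ^ 12 * W.Δ := by rw [hC, variableChange_Δ]
  have hc : (W.minimal R).c₄ = u ^ 4 * W.c₄ := by rw [hC, variableChange_c₄]
  have hng : ¬ (W.minimal R).HasGoodReduction R := by
    intro h
    have h1 := h.goodReduction
    rw [hd, map_mul, hΔ, map_pow] at h1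
    have h2 : v u ≠ 0 := (Valuation.ne_zero_iff v).2 hu0
    obtain ⟨k, hk⟩ : ∃ k : ℤ, v u = WithZero.exp k := ⟨WithZero.log (v u), (WithZero.exp_log h2).symm⟩
    rw [hk, ← WithZero.exp_nsmul, ← WithZero.exp_add, WithZero.exp_eq_one] at h1
    simp only [nsmul_eq_mul] at h1
    push_cast at h1
    omega
  have hnm : ¬ (W.minimal R).HasMultiplicativeReduction R := by
    intro h
    have h1 := h.multiplicativeReduction
    have h2 := h.badReduction
    have h3 : (W.minimal R).c₄ ^ 3 = j * (W.minimal R).Δ := by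
      rw [hc, hd]
      linear_combination u ^ 12 * h4
    have h5 := congrArg v h3
    rw [map_pow, map_mul] at h5
    have h6 : v (W.minimal R).c₄ = 1 := h1
    rw [h6, one_pow] at h5
    have h7 : v j * v (W.minimal R).Δ < 1 := by
      refine lt_of_le_of_lt (mul_le_of_le_one_left' hj) h2
    rw [← h5] at h7
    exact lt_irrefl _ h7
  have hns : ¬ (W.minimal R).HasSplitMultiplicativeReduction R := fun h =>
    hnm h.toHasMultiplicativeReduction
  unfold aLoc eLoc
  rw [if_neg hng, if_neg hng, if_neg hns, if_neg hnm]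
  exact ⟨rfl, rfl⟩

/-- nonsplit multiplicative reduction -/
theorem min_mult {W₀ : WeierstrassCurve R} (h0 : W₀.Δ ≠ 0) (hΔ : ¬ IsUnit W₀.Δ)
    (hc : IsUnit W₀.c₄)
    (hns : ∀ s w : IsLocalRing.ResidueField R, w ≠ 0 →
      s ^ 2 ≠ w ^ 2 * (-(IsLocalRing.residue R (W₀.c₄ * W₀.c₆))))
    {W : WeierstrassCurve L} (hW : W = W₀.map (algebraMap R L)) :
    aLoc R W = -1 ∧ eLoc R W = 0 := by
  have hWint : IsIntegral R W := ⟨⟨W₀, hW⟩⟩
  set v := (maximalIdeal R).valuation L with hv
  have hR : ∀ a : R, v (algebraMap R L a) ≤ 1 := fun a =>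
    IsDedekindDomain.HeightOneSpectrum.valuation_le_one _ a
  have hinj : Function.Injective (algebraMap R L) := IsFractionRing.injective R L
  have hvΔ : v W.Δ < 1 := by
    rw [hW, map_Δ]
    refine (IsDedekindDomain.HeightOneSpectrum.valuation_lt_one_iff_mem _ _).2 ?_
    exact (IsLocalRing.mem_maximalIdeal _).2 hΔ
  have hvΔ0 : v W.Δ ≠ 0 := by
    refine (Valuation.ne_zero_iff v).2 ?_
    rw [hW, map_Δ]
    exact fun h => h0 (hinj (h.trans (map_zero _).symm))
  have hvc : v W.c₄ = 1 := by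
    rw [hW, map_c₄]
    exact v_unit R hc
  obtain ⟨C, hC⟩ : ∃ C : VariableChange L, W.minimal R = C • W := ⟨_, rfl⟩
  set u : L := ((C.u⁻¹ : Lˣ) : L) with hu
  have hu0 : u ≠ 0 := (C.u⁻¹).ne_zero
  have hd : (W.minimal R).Δ = u ^ 12 * W.Δ := by rw [hC, variableChange_Δ]
  have hc4 : (W.minimal R).c₄ = u ^ 4 * W.c₄ := by rw [hC, variableChange_c₄]
  have hc6 : (W.minimal R).c₆ = u ^ 6 * W.c₆ := by rw [hC, variableChange_c₆]
  have hmin : IsMinimal R (W.minimal R) := inferInstance
  -- the valuation of `u` is one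
  have hu1 : v u ≤ 1 := by
    have h1 : v (W.minimal R).c₄ ≤ 1 := by
      rw [← integralModel_c₄_eq R (W.minimal R)]
      exact hR _
    rw [hc4, map_mul, hvc, mul_one, map_pow] at h1
    by_contra hcon
    push Not at hcon
    exact absurd h1 (not_le.2 (one_lt_pow₀ hcon (by norm_num)))
  have hu2 : v u = 1 := by
    obtain ⟨h1, h2⟩ := hmin.val_Δ_maximal
    have e1 : C⁻¹ • W.minimal R = W := by rw [hC, inv_smul_smul]
    have h3 := h2 (j := C⁻¹) (by simp only [e1]; exact hWint)
    simp only [e1, one_smul] at h3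
    have e4 : v (W.minimal R).Δ ≤ v W.Δ := by
      rw [hd, map_mul, map_pow]
      exact mul_le_of_le_one_left' (pow_le_one₀ zero_le hu1)
    have hle : valuation_Δ_aux R (W.minimal R) ≤ valuation_Δ_aux R W := by
      rw [← Subtype.coe_le_coe, valuation_Δ_aux_eq_of_isIntegral R W,
        valuation_Δ_aux_eq_of_isIntegral R (W.minimal R)]
      exact e4
    have h4 := le_antisymm hle (h3 hle)
    have h5 := congrArg Subtype.val h4
    rw [valuation_Δ_aux_eq_of_isIntegral, valuation_Δ_aux_eq_of_isIntegral, hd, map_mul,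
      map_pow] at h5
    have h6 : v u ^ 12 = 1 := by
      have h7 : v u ^ 12 * v W.Δ = 1 * v W.Δ := by rw [one_mul]; exact h5
      exact mul_right_cancel₀ hvΔ0 h7
    exact (pow_eq_one_iff_of_nonneg zero_le (by norm_num)).1 h6
  have hm : (W.minimal R).HasMultiplicativeReduction R :=
    { badReduction := by rw [hd, map_mul, map_pow, hu2, one_pow, one_mul]; exact hvΔ
      multiplicativeReduction := by rw [hc4, map_mul, map_pow, hu2, one_pow, one_mul]; exact hvc }
  have hng : ¬ (W.minimal R).HasGoodReduction R := hm.not_hasGoodReduction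
  have hnsp : ¬ (W.minimal R).HasSplitMultiplicativeReduction R := by
    intro h
    have hs := h.splitMultiplicativeReduction
    set I := (W.minimal R).integralModel R with hI
    have hI4 : algebraMap R L I.c₄ = u ^ 4 * W.c₄ := by rw [hI, integralModel_c₄_eq, hc4]
    have hI6 : algebraMap R L I.c₆ = u ^ 6 * W.c₆ := by rw [hI, integralModel_c₆_eq, hc6]
    obtain ⟨u0, hu0'⟩ := IsDiscreteValuationRing.exists_lift_of_le_one (A := R) (K := L) hu1
    have hu0u : IsUnit u0 := by
      by_contra hcon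
      have h7 : v (algebraMap R L u0) < 1 :=
        (IsDedekindDomain.HeightOneSpectrum.valuation_lt_one_iff_mem
          (K := L) (maximalIdeal R) u0).2 ((IsLocalRing.mem_maximalIdeal _).2 hcon)
      rw [hu0'] at h7
      exact h7.ne hu2
    have e4 : I.c₄ = u0 ^ 4 * W₀.c₄ := by
      apply hinj
      rw [hI4, map_mul, map_pow, hu0', hW, map_c₄]
    have e6 : I.c₆ = u0 ^ 6 * W₀.c₆ := by
      apply hinj
      rw [hI6, map_mul, map_pow, hu0', hW, map_c₆]
    have hcI : IsUnit I.c₄ := by rw [e4]; exact (hu0u.pow 4).mul hc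
    set r := IsLocalRing.residue R with hr
    have hcr : r I.c₄ ≠ 0 := (hcI.map r).ne_zero
    have hur : r u0 ≠ 0 := (hu0u.map r).ne_zero
    -- a root of the polynomial
    have hroot : ∃ t : IsLocalRing.ResidueField R,
        r I.c₄ * t ^ 2 + r (I.a₁ * I.c₄) * t - r (54 * I.b₆ - 3 * I.b₂ * I.b₄ + I.a₂ * I.c₄) = 0 := by
      have hdeg : (Polynomial.map (algebraMap R (IsLocalRing.ResidueField R))
          (Polynomial.C I.c₄ * Polynomial.X ^ 2 + Polynomial.C (I.a₁ * I.c₄) * Polynomial.X -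
            Polynomial.C (54 * I.b₆ - 3 * I.b₂ * I.b₄ + I.a₂ * I.c₄))) =
          Polynomial.C (r I.c₄) * Polynomial.X ^ 2 + Polynomial.C (r (I.a₁ * I.c₄)) * Polynomial.X +
            Polynomial.C (-(r (54 * I.b₆ - 3 * I.b₂ * I.b₄ + I.a₂ * I.c₄))) := by
        simp only [Polynomial.map_sub, Polynomial.map_add, Polynomial.map_mul, Polynomial.map_C,
          Polynomial.map_pow, Polynomial.map_X, map_neg, ← sub_eq_add_neg]
        rfl
      rw [hdeg] at hs
      have hd2 := Polynomial.degree_quadratic (b := r (I.a₁ * I.c₄))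
        (c := -(r (54 * I.b₆ - 3 * I.b₂ * I.b₄ + I.a₂ * I.c₄))) hcr
      obtain ⟨t, ht⟩ := hs.exists_eval_eq_zero (by rw [hd2]; norm_num)
      refine ⟨t, ?_⟩
      simp only [Polynomial.eval_add, Polynomial.eval_mul, Polynomial.eval_C, Polynomial.eval_pow,
        Polynomial.eval_X] at ht
      linear_combination ht
    obtain ⟨t, ht⟩ := hroot
    have key : (2 * r I.c₄ * t + r I.a₁ * r I.c₄) ^ 2 = -(r (I.c₄ * I.c₆)) := by
      have e1 : r (I.a₁ * I.c₄) = r I.a₁ * r I.c₄ := map_mul _ _ _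
      have e2 : (4 : IsLocalRing.ResidueField R) * r I.c₄ *
          r (54 * I.b₆ - 3 * I.b₂ * I.b₄ + I.a₂ * I.c₄) + (r I.a₁ * r I.c₄) ^ 2 =
          -(r (I.c₄ * I.c₆)) := by
        have e3 : 4 * I.c₄ * (54 * I.b₆ - 3 * I.b₂ * I.b₄ + I.a₂ * I.c₄) + (I.a₁ * I.c₄) ^ 2 =
            -(I.c₄ * I.c₆) := by
          simp only [WeierstrassCurve.c₄, WeierstrassCurve.c₆, WeierstrassCurve.b₂,
            WeierstrassCurve.b₄, WeierstrassCurve.b₆]
          ring
        have e5 := congrArg r e3
        rw [map_add, map_mul, map_mul, map_pow, map_mul, map_neg] at e5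
        rw [← e5]
        congr 3
      rw [e1] at ht
      linear_combination 4 * r I.c₄ * ht + e2
    refine hns (2 * r I.c₄ * t + r I.a₁ * r I.c₄) ((r u0) ^ 5) (pow_ne_zero 5 hur) ?_
    rw [key, e4, e6]
    simp only [map_mul, map_pow]
    ring
  unfold aLoc eLoc
  rw [if_neg hng, if_neg hng, if_neg hnsp, if_pos hm]
  exact ⟨rfl, rfl⟩

end Local

section Global

variable (v : HeightOneSpectrum (𝓞 ℚ))

/-- the prime number below `v` -/
noncomputable def ng : ℕ := Rat.HeightOneSpectrum.natGenerator v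

theorem ng_prime : (ng v).Prime := Rat.HeightOneSpectrum.prime_natGenerator v

theorem int_of (a : 𝓞 ℚ) : ∃ m : ℤ, a = (m : 𝓞 ℚ) := by
  refine ⟨Rat.IsIntegralClosure.intEquiv (𝓞 ℚ) a, ?_⟩
  apply (Rat.IsIntegralClosure.intEquiv (𝓞 ℚ)).injective
  rw [map_intCast]
  rfl

theorem mem_iff (m : ℤ) : (m : 𝓞 ℚ) ∈ v.asIdeal ↔ (ng v : ℤ) ∣ m := by
  rw [← Ideal.mem_span_singleton, ng, Rat.HeightOneSpectrum.span_natGenerator,
    ← Ideal.apply_mem_of_equiv_iff (f := Rat.IsIntegralClosure.intEquiv (𝓞 ℚ)), map_intCast]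
  rfl

theorem ng_span : v.asIdeal = Ideal.span {((ng v : ℕ) : 𝓞 ℚ)} := by
  ext a
  obtain ⟨m, rfl⟩ := int_of a
  rw [mem_iff, Ideal.mem_span_singleton]
  constructor
  · rintro ⟨k, rfl⟩
    exact ⟨(k : 𝓞 ℚ), by push_cast; rfl⟩
  · rintro ⟨b, hb⟩
    obtain ⟨k, rfl⟩ := int_of b
    refine ⟨k, ?_⟩
    have : (m : 𝓞 ℚ) = ((ng v * k : ℤ) : 𝓞 ℚ) := by rw [hb]; push_cast; rfl
    exact_mod_cast this

theorem ng_val : v.valuation ℚ ((ng v : ℕ) : ℚ) = WithZero.exp (-1 : ℤ) := by
  have h0 : ((ng v : ℕ) : 𝓞 ℚ) ≠ 0 := by exact_mod_cast (ng_prime v).ne_zero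
  have h1 := v.intValuation_singleton h0 (ng_span v)
  rw [← HeightOneSpectrum.valuation_of_algebraMap (K := ℚ)] at h1
  have e : algebraMap (𝓞 ℚ) ℚ ((ng v : ℕ) : 𝓞 ℚ) = ((ng v : ℕ) : ℚ) := map_natCast _ _
  rw [← e]
  exact h1

/-- the residue field -/
noncomputable def res : IsLocalRing.ResidueField (Ov v) ≃+* ZMod (ng v) :=
  haveI : RingHomInvPair (RingHom.id ℤ) (RingHom.id ℤ) := inferInstance
  have h1 : Ideal.span {((ng v : ℕ) : ℤ)} =
      v.asIdeal.map (Rat.IsIntegralClosure.intEquiv (𝓞 ℚ) : 𝓞 ℚ →+* ℤ) :=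
    Rat.HeightOneSpectrum.span_natGenerator v
  have hker : RingHom.ker (redMap v) = v.asIdeal := by
    ext r
    rw [RingHom.mem_ker]
    exact redMap_eq_zero v r
  ((Ideal.quotEquivOfEq hker.symm).trans
    (RingHom.quotientKerEquivOfSurjective (redMap_surjective v))).symm.trans
    ((Ideal.quotientEquiv v.asIdeal (Ideal.span {((ng v : ℕ) : ℤ)})
      (Rat.IsIntegralClosure.intEquiv (𝓞 ℚ)) h1).trans (Int.quotientSpanNatEquivZMod (ng v)))

theorem nm_eq_ng : nm v = ng v := by
  rw [← card_res, Nat.card_congr (res v).toEquiv, Nat.card_zmod]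

theorem card_map (V : WeierstrassCurve ℤ) {k k' : Type} [CommRing k] [CommRing k'] (e : k ≃+* k') :
    Nat.card (AP (V.map (Int.castRingHom k))) = Nat.card (AP (V.map (Int.castRingHom k'))) := by
  refine Nat.card_congr (Equiv.subtypeEquiv (Equiv.prodCongr e.toEquiv e.toEquiv) fun x => ?_)
  have h : V.map (Int.castRingHom k') = (V.map (Int.castRingHom k)).map (e : k →+* k') := by
    rw [WeierstrassCurve.map_map]
    congr 1
    exact RingHom.ext_int _ _
  rw [h]
  exact (WeierstrassCurve.Affine.map_equation (V.map (Int.castRingHom k)).toAffine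
    (f := (e : k →+* k')) e.injective x.1 x.2).symm

/-- the curve over the completion -/
theorem base_eq (V : WeierstrassCurve ℤ) :
    (V.map (Int.castRingHom ℚ)).baseChange (v.adicCompletion ℚ) =
      (V.map (Int.castRingHom (Ov v))).map (algebraMap (Ov v) (v.adicCompletion ℚ)) := by
  unfold WeierstrassCurve.baseChange
  rw [WeierstrassCurve.map_map, WeierstrassCurve.map_map]
  congr 1
  exact RingHom.ext_int _ _

theorem res_int (m : ℤ) : IsLocalRing.residue (Ov v) (m : Ov v) = 0 ↔ (ng v : ℤ) ∣ m := by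
  rw [map_intCast, ← map_eq_zero_iff (res v) (res v).injective, map_intCast,
    ZMod.intCast_zmod_eq_zero_iff_dvd]

theorem unit_int (m : ℤ) : IsUnit (m : Ov v) ↔ ¬ (ng v : ℤ) ∣ m := by
  rw [← res_int, IsLocalRing.residue_eq_zero_iff, IsLocalRing.mem_maximalIdeal, mem_nonunits_iff,
    not_not]

/-- the valuation of a uniformizer in the completion (from `Y698/Av.lean`) -/
theorem mv : (IsDiscreteValuationRing.maximalIdeal (v.adicCompletionIntegers ℚ)).valuation
      (v.adicCompletion ℚ) (ng v : v.adicCompletion ℚ) = WithZero.exp (-1 : ℤ) := by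
  have hv := ng_val v
  set q := ng v with hqdef
  have h1 : Valued.v (q : v.adicCompletion ℚ) = WithZero.exp (-1 : ℤ) := by
    have h2 := Pool.Agent.H723R3.valued_algebraMap v (q : ℚ)
    rw [map_natCast] at h2
    rw [h2, hv]
  have hq : ((q : Ov v) : v.adicCompletion ℚ) = (q : v.adicCompletion ℚ) := by
    push_cast
    rfl
  have hlt : ∀ x : Ov v, ¬ IsUnit x → Valued.v (x : v.adicCompletion ℚ) ≤ WithZero.exp (-1 : ℤ) := by
    intro x hx
    have h2 := (mem_max_iff v x).1 ((IsLocalRing.mem_maximalIdeal x).2 hx)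
    by_cases h0 : Valued.v (x : v.adicCompletion ℚ) = 0
    · rw [h0]
      exact zero_le
    · obtain ⟨k, hk⟩ : ∃ k : ℤ, Valued.v (x : v.adicCompletion ℚ) = WithZero.exp k :=
        ⟨WithZero.log _, (WithZero.exp_log h0).symm⟩
      rw [hk] at h2 ⊢
      rw [← WithZero.exp_zero, WithZero.exp_lt_exp] at h2
      rw [WithZero.exp_le_exp]
      omega
  have hirr : Irreducible (q : Ov v) := by
    constructor
    · intro hu
      have h2 := HeightOneSpectrum.adicCompletionIntegers.isUnit_iff_valued_eq_one.1 hu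
      rw [hq, h1, WithZero.exp_eq_one] at h2
      omega
    · intro a b hab
      by_contra hcon
      push Not at hcon
      have h2 := mul_le_mul' (hlt a hcon.1) (hlt b hcon.2)
      have h3 : ((a * b : Ov v) : v.adicCompletion ℚ) =
        (a : v.adicCompletion ℚ) * (b : v.adicCompletion ℚ) := rfl
      rw [← map_mul, ← h3, ← hab, hq, h1, ← WithZero.exp_add, WithZero.exp_le_exp] at h2
      omega
  have h2 := (IsDiscreteValuationRing.irreducible_iff_uniformizer _).1 hirr
  have h3 := (IsDiscreteValuationRing.maximalIdeal (Ov v)).intValuation_singleton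
    (r := (q : Ov v)) (hirr.ne_zero) h2
  have h4 := (IsDiscreteValuationRing.maximalIdeal (Ov v)).valuation_of_algebraMap
    (K := v.adicCompletion ℚ) (q : Ov v)
  rw [h3] at h4
  refine Eq.trans ?_ h4
  congr 1

theorem vunit {m : ℤ} (hm : ¬ (ng v : ℤ) ∣ m) :
    (IsDiscreteValuationRing.maximalIdeal (v.adicCompletionIntegers ℚ)).valuation
      (v.adicCompletion ℚ) (m : v.adicCompletion ℚ) = 1 := by
  have h := v_unit (v.adicCompletionIntegers ℚ) (L := v.adicCompletion ℚ) ((unit_int v m).2 hm)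
  rw [map_intCast] at h
  exact h

/-- the valuation of an integer -/
theorem vint (k : ℕ) {m : ℤ} (hm : ¬ (ng v : ℤ) ∣ m) :
    (IsDiscreteValuationRing.maximalIdeal (v.adicCompletionIntegers ℚ)).valuation
      (v.adicCompletion ℚ) (((ng v : ℤ) ^ k * m : ℤ) : v.adicCompletion ℚ) =
        WithZero.exp (-(k : ℤ)) := by
  rw [Int.cast_mul, Int.cast_pow, Int.cast_natCast, map_mul, map_pow, mv, vunit v hm, mul_one,
    ← WithZero.exp_nsmul]
  congr 1
  simp

end Global

end Pool.Agent.N54.MF
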